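import Mathlib
import Pool.Agent.N892.BW.Stm2
import Pool.Agent.N892.BW.PAL_a
import Pool.Agent.N892.BW.FOUR

/-! Functions in inverted coordinates. -/

set_option autoImplicit false

open MeasureTheory ENNReal Topology Complex
open scoped ComplexConjugate ContDiff

namespace Pool.Agent.L5helper98.PF

open Pool.Agent.N892.BW

/-- the phase of the kernel -/
noncomputable def ph (n : ℕ) (w : ℂ) : ℂ := (-1) ^ n * (conj w / w) ^ n

theorem ph_norm (n : ℕ) {w : ℂ} (hw : w ≠ 0) : ‖ph n w‖ = 1 := by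
  unfold ph
  rw [norm_mul, norm_pow, norm_pow, norm_neg, norm_one, one_pow, one_mul, norm_div,
    Complex.norm_conj, div_self (norm_ne_zero_iff.2 hw), one_pow]

theorem Kn_eq (n : ℕ) (hn : 1 ≤ n) (w : ℂ) : Kn n w = ((ker n w : ℝ) : ℂ) * ph n w := by
  by_cases hw : w = 0
  · subst hw
    unfold Kn ker ph
    simp
  · have hc : conj w ≠ 0 := by simpa using hw
    unfold Kn ker ph
    obtain ⟨k, rfl⟩ : ∃ k, n = k + 1 := ⟨n - 1, by omega⟩
    have h1 : ((‖w‖ ^ 2 : ℝ) : ℂ) = w * conj w := by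
      rw [Complex.mul_conj, Complex.normSq_eq_norm_sq]
    have hpi : (Real.pi : ℂ) ≠ 0 := by exact_mod_cast Real.pi_ne_zero
    have h2 : (((((k + 1 : ℕ) : ℝ)) / (Real.pi * ‖w‖ ^ 2) : ℝ) : ℂ) =
        ((k + 1 : ℕ) : ℂ) / ((Real.pi : ℂ) * (w * conj w)) := by
      rw [← h1]
      push_cast
      rfl
    rw [h2, div_pow]
    simp only [Nat.add_sub_cancel]
    field_simp
    ring

theorem ph_iv (n : ℕ) (hn : 1 ≤ n) {v : ℂ} (hv : v ≠ 0) : ph n (iv n v) = ph n v := by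
  have hc : conj v ≠ 0 := by simpa using hv
  have hn0 : (n : ℂ) ≠ 0 := by exact_mod_cast (by omega : n ≠ 0)
  unfold ph iv
  congr 2
  rw [map_div₀, Complex.conj_conj]
  simp only [map_mul, Complex.conj_ofNat, Complex.conj_natCast]
  field_simp

/-- smooth off the origin -/
def So0 (g : ℂ → ℂ) : Prop := ∀ w : ℂ, w ≠ 0 → ContDiffAt ℝ ∞ g w

theorem so_conj : So0 (fun w => conj w) := fun w _ =>
  (Complex.conjCLE : ℂ →L[ℝ] ℂ).contDiff.contDiffAt

theorem so_id : So0 (fun w => w) := fun _ _ => contDiffAt_id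

theorem so_const (c : ℂ) : So0 (fun _ => c) := fun _ _ => contDiffAt_const

theorem So0.mul {g h : ℂ → ℂ} (hg : So0 g) (hh : So0 h) : So0 (fun w => g w * h w) :=
  fun w hw => (hg w hw).mul (hh w hw)

theorem So0.pow {g : ℂ → ℂ} (hg : So0 g) (k : ℕ) : So0 (fun w => g w ^ k) :=
  fun w hw => (hg w hw).pow k

theorem So0.inv {g : ℂ → ℂ} (hg : So0 g) (h0 : ∀ w, w ≠ 0 → g w ≠ 0) : So0 (fun w => (g w)⁻¹) :=
  fun w hw => (hg w hw).inv (h0 w hw)

theorem So0.div {g h : ℂ → ℂ} (hg : So0 g) (hh : So0 h) (h0 : ∀ w, w ≠ 0 → h w ≠ 0) :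
    So0 (fun w => g w / h w) := by
  simp only [div_eq_mul_inv]
  exact hg.mul (hh.inv h0)

theorem conj_ne {w : ℂ} (hw : w ≠ 0) : conj w ≠ 0 := by simpa using hw

theorem so_ker (n : ℕ) : So0 (fun w => ((ker n w : ℝ) : ℂ)) := by
  have h : (fun w : ℂ => ((ker n w : ℝ) : ℂ)) =
      fun w => ((n : ℂ) / (Real.pi : ℂ)) * (w * conj w)⁻¹ := by
    funext w
    unfold ker
    have h1 : ((‖w‖ ^ 2 : ℝ) : ℂ) = w * conj w := by
      rw [Complex.mul_conj, Complex.normSq_eq_norm_sq]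
    push_cast
    have h1' : (‖w‖ : ℂ) ^ 2 = w * conj w := by rw [← h1]; push_cast; rfl
    rw [h1', ← div_div, div_eq_mul_inv ((n : ℂ) / (Real.pi : ℂ))]
  rw [h]
  exact (so_const _).mul ((so_id.mul so_conj).inv fun w hw => mul_ne_zero hw (conj_ne hw))

theorem so_ph (n : ℕ) : So0 (ph n) := by
  unfold ph
  exact (so_const _).mul ((so_conj.div so_id fun _ hw => hw).pow n)

theorem so_iv (n : ℕ) : So0 (iv n) := by
  unfold iv
  exact (so_const _).div so_conj fun w hw => conj_ne hw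

/-- products of smooth functions off the origin with functions in inverted coordinates -/
theorem bd_iv {a b : ℝ} {h g : ℂ → ℂ} (ha : 0 < a) (hh : Bd a b h) (hg : So0 g) {n : ℕ}
    (hn : 1 ≤ n) : Bd (2 * n / b) (2 * n / a) (fun w => g w * h (iv n w)) := by
  have hn0 : (0 : ℝ) < n := by exact_mod_cast hn
  have key : ∀ w, g w * h (iv n w) ≠ 0 → 2 * n / b ≤ ‖w‖ ∧ ‖w‖ ≤ 2 * n / a ∧ 0 < ‖w‖ ∧ 0 < b := by
    intro w hw
    obtain ⟨h1, h2⟩ := hh.2 _ (right_ne_zero_of_mul hw)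
    rw [PAL.norm_iv] at h1 h2
    have hw0 : 0 < ‖w‖ := by
      rw [norm_pos_iff]
      rintro rfl
      rw [norm_zero, _root_.div_zero] at h1
      linarith
    have hb : 0 < b := lt_of_lt_of_le (by positivity) h2
    refine ⟨?_, ?_, hw0, hb⟩
    · rw [div_le_iff₀ hb]
      rw [div_le_iff₀ hw0] at h2
      linarith
    · rw [le_div_iff₀ ha]
      rw [le_div_iff₀ hw0] at h1
      linarith
  refine ⟨?_, fun w hw => ⟨(key w hw).1, (key w hw).2.1⟩⟩
  rw [contDiff_iff_contDiffAt]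
  intro w
  by_cases hw : w = 0
  · subst hw
    by_cases hb : 0 < b
    · have hc : ContDiffAt ℝ ∞ (fun _ : ℂ => (0 : ℂ)) 0 := contDiffAt_const
      refine hc.congr_of_eventuallyEq ?_
      have hpos : 0 < 2 * n / b := by positivity
      filter_upwards [Metric.ball_mem_nhds (0 : ℂ) hpos] with y hy
      by_contra hne
      have := (key y hne).1
      rw [Metric.mem_ball, dist_zero_right] at hy
      linarith
    · have hz : (fun w => g w * h (iv n w)) = fun _ => 0 := by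
        funext y
        by_contra hne
        exact hb (key y hne).2.2.2
      rw [hz]
      exact contDiffAt_const
  · exact (hg w hw).mul ((hh.1.contDiffAt).comp w (so_iv n w hw))

/-- the function of the Fourier variable -/
noncomputable def P (n : ℕ) (f : ℂ → ℂ) (v : ℂ) : ℂ := (((ker n v : ℝ) : ℂ) * ph n v) * f (iv n v)

/-- the inverse map -/
noncomputable def G (n : ℕ) (Ψ : ℂ → ℂ) (w : ℂ) : ℂ :=
  (((ker n (iv n w) : ℝ) : ℂ) * ph n w)⁻¹ * Ψ (iv n w)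

theorem ker_pos {n : ℕ} (hn : 1 ≤ n) {w : ℂ} (hw : w ≠ 0) : 0 < ker n w := by
  have hn0 : (0 : ℝ) < n := by exact_mod_cast hn
  have h1 : 0 < ‖w‖ := norm_pos_iff.2 hw
  have := Real.pi_pos
  unfold ker
  positivity

theorem kp_ne {n : ℕ} (hn : 1 ≤ n) {w : ℂ} (hw : w ≠ 0) :
    ((ker n w : ℝ) : ℂ) * ph n w ≠ 0 := by
  refine mul_ne_zero (by exact_mod_cast (ker_pos hn hw).ne') ?_
  rw [← norm_ne_zero_iff, ph_norm n hw]
  exact one_ne_zero

theorem bd_P {a b : ℝ} {f : ℂ → ℂ} (ha : 0 < a) (hf : Bd a b f) {n : ℕ} (hn : 1 ≤ n) :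
    Bd (2 * n / b) (2 * n / a) (P n f) :=
  bd_iv ha hf ((so_ker n).mul (so_ph n)) hn

theorem bd_G {a b : ℝ} {f : ℂ → ℂ} (ha : 0 < a) (hf : Bd a b f) {n : ℕ} (hn : 1 ≤ n) :
    Bd (2 * n / b) (2 * n / a) (G n f) := by
  refine bd_iv ha hf (So0.inv (So0.mul (fun w hw => ?_) (so_ph n)) fun w hw => ?_) hn
  · exact (so_ker n _ (PAL.iv_ne hn hw)).comp w (so_iv n w hw)
  · have h := kp_ne hn (PAL.iv_ne hn hw)
    rwa [ph_iv n hn hw] at h

theorem P_G {Ψ : ℂ → ℂ} {n : ℕ} (hn : 1 ≤ n) {v : ℂ} (hv : v ≠ 0) : P n (G n Ψ) v = Ψ v := by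
  unfold P G
  rw [PAL.iv_iv n hn, ph_iv n hn hv, ← mul_assoc, mul_inv_cancel₀ (kp_ne hn hv), one_mul]

/-- the main part of the operator -/
noncomputable def M (n : ℕ) (f : ℂ → ℂ) (z : ℂ) : ℂ := ∫ w, Kn n w * ex z (iv n w) * f w

theorem M_eq {n : ℕ} (hn : 1 ≤ n) (f : ℂ → ℂ) (z : ℂ) : M n f z = ∫ v, P n f v * ex z v := by
  have h := PAL.phi_eq n hn (fun w => ph n w * f w) z
  have e1 : M n f z = ∫ w, ((ker n w : ℝ) : ℂ) * (ph n w * f w) * ex z (iv n w) := by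
    unfold M
    refine integral_congr_ae (Filter.Eventually.of_forall fun w => ?_)
    simp only
    rw [Kn_eq n hn]
    ring
  rw [e1, h]
  refine integral_congr_ae ?_
  filter_upwards [compl_mem_ae_iff.2 (measure_singleton (0 : ℂ))] with v hv
  have hv0 : v ≠ 0 := hv
  unfold PAL.FF P
  simp only
  rw [ph_iv n hn hv0]
  ring

theorem M_four {n : ℕ} (hn : 1 ≤ n) (f : ℂ → ℂ) (z : ℂ) :
    M n f z = FourierTransform.fourier (P n f) ((2 * Real.pi)⁻¹ • FOUR.rt z) := by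
  rw [M_eq hn]
  exact FOUR.ex_four (P n f) z

/-- the integral of the power `p` -/
noncomputable def N (p : ℝ) (f : ℂ → ℂ) : ℝ≥0∞ := ∫⁻ x, ‖f x‖ₑ ^ p

/-- the weighted integral -/
noncomputable def W (p : ℝ) (Φ : ℂ → ℂ) : ℝ≥0∞ := ∫⁻ v, ‖Φ v‖ₑ ^ p * ‖v‖ₑ ^ (2 * p - 4)

theorem W_P {p : ℝ} (hp : 0 < p) {n : ℕ} (hn : 1 ≤ n) (f : ℂ → ℂ) :
    W p (P n f) = ENNReal.ofReal ((n / Real.pi) ^ p / (2 * (n : ℝ)) ^ 2) * N p f := by
  have hn0 : (0 : ℝ) < n := by exact_mod_cast hn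
  have hpi := Real.pi_pos
  unfold W N
  rw [PAL.cov n hn (fun w => ‖f w‖ₑ ^ p), ← lintegral_const_mul' _ _ ofReal_ne_top]
  refine lintegral_congr_ae ?_
  filter_upwards [compl_mem_ae_iff.2 (measure_singleton (0 : ℂ))] with v hv
  have hv0 : v ≠ 0 := hv
  have hr : 0 < ‖v‖ := norm_pos_iff.2 hv0
  have h1 : ‖P n f v‖ = n / (Real.pi * ‖v‖ ^ 2) * ‖f (iv n v)‖ := by
    unfold P
    rw [norm_mul, norm_mul, ph_norm n hv0, mul_one, Complex.norm_real,
      Real.norm_of_nonneg (PAL.ker_nonneg n v)]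
    rfl
  rw [← ofReal_norm (P n f v), ← ofReal_norm v, ← ofReal_norm (f (iv n v)),
    ENNReal.ofReal_rpow_of_nonneg (norm_nonneg _) hp.le, ENNReal.ofReal_rpow_of_pos hr,
    ENNReal.ofReal_rpow_of_nonneg (norm_nonneg _) hp.le,
    ← ENNReal.ofReal_mul (Real.rpow_nonneg (norm_nonneg _) _), ← ENNReal.ofReal_mul (by positivity),
    ← ENNReal.ofReal_mul (by positivity), h1]
  congr 1
  have e2 : (n / (Real.pi * ‖v‖ ^ 2) * ‖f (iv n v)‖) ^ p =
      (n / Real.pi) ^ p * ((‖v‖ ^ (2 * p))⁻¹ * ‖f (iv n v)‖ ^ p) := by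
    rw [Real.mul_rpow (by positivity) (norm_nonneg _), ← div_div,
      Real.div_rpow (by positivity) (by positivity), ← Real.rpow_natCast ‖v‖ 2, ← Real.rpow_mul hr.le]
    push_cast
    rw [div_eq_mul_inv]
    ring
  have e3 : ‖v‖ ^ (2 * p - 4) = ‖v‖ ^ (2 * p) / ‖v‖ ^ 4 := by
    rw [Real.rpow_sub hr]
    congr 1
    exact_mod_cast Real.rpow_natCast ‖v‖ 4
  rw [e2, e3]
  have h5 : 0 < ‖v‖ ^ (2 * p) := Real.rpow_pos_of_pos hr _
  field_simp

theorem N_M {p : ℝ} {n : ℕ} (hn : 1 ≤ n) {f : ℂ → ℂ} (hi : Integrable (P n f)) :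
    N p (M n f) = ENNReal.ofReal ((2 * Real.pi) ^ 2) * N p (FourierTransform.fourier (P n f)) := by
  have hc : Continuous (FourierTransform.fourier (P n f)) :=
    VectorFourier.fourierIntegral_continuous (L := innerₗ ℂ) Real.continuous_fourierChar
      continuous_inner hi
  unfold N
  rw [← FOUR.scale (fun x => ‖FourierTransform.fourier (P n f) x‖ₑ ^ p)
    (hc.enorm.measurable.pow_const _)]
  simp only [M_four hn]

end Pool.Agent.L5helper98.PF
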