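import Mathlib
import Pool.Agent.L5helper98.PF.A
import Pool.Agent.N892.BW.LIN
import Pool.Agent.N892.BW.KER

/-! The operator near the origin, for functions supported in `‖w‖ ≥ 1`. -/

set_option autoImplicit false

open MeasureTheory ENNReal Topology Complex
open scoped ComplexConjugate ContDiff SchwartzMap

namespace Pool.Agent.L5helper98.PF

open Pool.Agent.N892.BW

theorem Kn_even (n : ℕ) (hn : 1 ≤ n) (x : ℂ) : Kn n (-x) = Kn n x := by
  rw [Kn_eq n hn, Kn_eq n hn]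
  unfold ker ph
  rw [norm_neg, map_neg, neg_div_neg_eq]

theorem Kn_norm (n : ℕ) (hn : 1 ≤ n) (x : ℂ) : ‖Kn n x‖ ≤ ker n x := by
  by_cases hx : x = 0
  · subst hx
    rw [Kn_eq n hn]
    unfold ker ph
    simp
  · rw [Kn_eq n hn, norm_mul, ph_norm n hx, mul_one, Complex.norm_real,
      Real.norm_of_nonneg (PAL.ker_nonneg n x)]

theorem Kn_meas (n : ℕ) : Measurable (Kn n) := by
  unfold Kn
  exact (measurable_const.mul ((Complex.continuous_conj.measurable).pow_const _)).div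
    (measurable_id.pow_const _)

/-- the constant of Hölder's inequality -/
noncomputable def Kc : ℝ≥0∞ := ∫⁻ w in {w : ℂ | 1 ≤ ‖w‖}, ENNReal.ofReal ((‖w‖ ^ 3)⁻¹)

theorem Kc_lt : Kc < ⊤ := by
  unfold Kc
  have h1 : Integrable fun w : ℂ => (1 + ‖w‖) ^ (-(3 : ℝ)) :=
    integrable_one_add_norm (by rw [Complex.finrank_real_complex]; norm_num)
  have h2 : ∫⁻ w : ℂ, ENNReal.ofReal (8 * (1 + ‖w‖) ^ (-(3 : ℝ))) < ⊤ :=
    (h1.const_mul 8).lintegral_lt_top
  refine lt_of_le_of_lt ?_ h2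
  refine (setLIntegral_mono' (measurableSet_le measurable_const measurable_norm) (g := fun w : ℂ =>
    ENNReal.ofReal (8 * (1 + ‖w‖) ^ (-(3 : ℝ)))) fun w hw => ?_).trans (setLIntegral_le_lintegral _ _)
  refine ENNReal.ofReal_le_ofReal ?_
  have hw1 : (1 : ℝ) ≤ ‖w‖ := hw
  rw [Real.rpow_neg (by positivity), show (3 : ℝ) = ((3 : ℕ) : ℝ) by norm_num, Real.rpow_natCast]
  rw [inv_le_iff_one_le_mul₀ (by positivity)]
  have h3 : (1 + ‖w‖) ^ 3 ≤ (2 * ‖w‖) ^ 3 := by gcongr; linarith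
  have h4 : 0 < (1 + ‖w‖) ^ 3 := by positivity
  rw [show 8 * ((1 + ‖w‖) ^ 3)⁻¹ * ‖w‖ ^ 3 = (2 * ‖w‖) ^ 3 / (1 + ‖w‖) ^ 3 by field_simp; ring]
  rw [one_le_div h4]
  exact h3

/-- Hölder's inequality with the weight `‖w‖ ^ (-3)` -/
theorem hold {p : ℝ} (hp : 2 ≤ p) {f : ℂ → ℂ} (hf : Measurable f) (h1 : ∀ w, f w ≠ 0 → 1 ≤ ‖w‖) :
    ∫⁻ w, ENNReal.ofReal ((‖w‖ ^ 3)⁻¹) * ‖f w‖ₑ ≤ (1 + Kc) * (N p f) ^ (1 / p) := by
  have hp0 : 0 < p := by linarith
  have hcj : (p / (p - 1)).HolderConjugate p := by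
    rw [Real.holderConjugate_iff]
    constructor
    · rw [lt_div_iff₀ (by linarith)]; linarith
    · rw [inv_div]; field_simp; ring
  have hms : MeasurableSet {w : ℂ | 1 ≤ ‖w‖} := measurableSet_le measurable_const measurable_norm
  have e1 : ∫⁻ w, ENNReal.ofReal ((‖w‖ ^ 3)⁻¹) * ‖f w‖ₑ =
      ∫⁻ w in {w : ℂ | 1 ≤ ‖w‖}, ENNReal.ofReal ((‖w‖ ^ 3)⁻¹) * ‖f w‖ₑ := by
    rw [← lintegral_indicator hms]
    refine lintegral_congr fun w => ?_
    by_cases hw : w ∈ {w : ℂ | 1 ≤ ‖w‖}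
    · rw [Set.indicator_of_mem hw]
    · rw [Set.indicator_of_notMem hw]
      have : f w = 0 := by
        by_contra hne
        exact hw (h1 w hne)
      rw [this]
      simp
  rw [e1]
  have hm3 : Measurable fun w : ℂ => ENNReal.ofReal ((‖w‖ ^ 3)⁻¹) :=
    ((measurable_norm.pow_const 3).inv).ennreal_ofReal
  refine (ENNReal.lintegral_mul_le_Lp_mul_Lq (volume.restrict {w : ℂ | 1 ≤ ‖w‖}) hcj
    hm3.aemeasurable hf.enorm.aemeasurable).trans ?_
  refine mul_le_mul' ?_ ?_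
  · have h2 : ∫⁻ w in {w : ℂ | 1 ≤ ‖w‖}, ENNReal.ofReal ((‖w‖ ^ 3)⁻¹) ^ (p / (p - 1)) ≤ Kc := by
      refine setLIntegral_mono' hms fun w hw => ?_
      have hw1 : (1 : ℝ) ≤ ‖w‖ := hw
      have h3 : ENNReal.ofReal ((‖w‖ ^ 3)⁻¹) ≤ 1 := by
        rw [← ENNReal.ofReal_one]
        refine ENNReal.ofReal_le_ofReal ?_
        exact inv_le_one_of_one_le₀ (one_le_pow₀ hw1)
      exact ENNReal.rpow_le_self_of_le_one h3 hcj.lt.le
    refine (ENNReal.rpow_le_rpow h2 (by have := hcj.pos; positivity)).trans ?_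
    have h4 : 1 / (p / (p - 1)) ≤ 1 := by
      rw [div_le_one hcj.pos]; exact hcj.lt.le
    rcases le_total Kc 1 with h | h
    · refine (ENNReal.rpow_le_one h (by have := hcj.pos; positivity)).trans ?_
      exact le_self_add
    · refine (ENNReal.rpow_le_rpow_of_exponent_le h h4).trans ?_
      rw [ENNReal.rpow_one]
      exact le_add_self
  · unfold N
    exact ENNReal.rpow_le_rpow (setLIntegral_le_lintegral _ _) (by positivity)

/-- the error of the linearisation -/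
theorem err {p : ℝ} (hp : 2 ≤ p) {n : ℕ} (hn : 1 ≤ n) (f : 𝓢(ℂ, ℂ)) (h1 : ∀ w, f w ≠ 0 → 1 ≤ ‖w‖)
    {z : ℂ} (hz1 : ‖z‖ ≤ 1 / 4) (hz2 : (n : ℝ) * ‖z‖ ^ 2 ≤ 1) :
    ‖TT n f z - M n f z‖ₑ ≤
      ENNReal.ofReal (100 * (n / Real.pi) * (‖z‖ + n * ‖z‖ ^ 2)) * ((1 + Kc) * (N p f) ^ (1 / p)) := by
  have hn0 : (0 : ℝ) < n := by exact_mod_cast hn
  have hpi := Real.pi_pos
  have hts : z ∉ tsupport f := by
    intro hz
    have hcl : IsClosed {w : ℂ | 1 ≤ ‖w‖} := isClosed_le continuous_const continuous_norm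
    have h3 : tsupport f ⊆ {w : ℂ | 1 ≤ ‖w‖} := closure_minimal (fun w hw => h1 w hw) hcl
    have h4 : (1 : ℝ) ≤ ‖z‖ := h3 hz
    linarith
  have hfi : Integrable fun w => f w := f.integrable
  have hfm : Measurable fun w => f w := f.continuous.measurable
  have i1 : Integrable fun w => Kn n (z - w) * f w := by
    refine Integrable.mono' (g := fun w => n / (Real.pi * (3 / 4) ^ 2) * ‖f w‖)
      (hfi.norm.const_mul _)
      (((Kn_meas n).comp (measurable_const.sub measurable_id)).mul hfm).aestronglyMeasurable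
      (Filter.Eventually.of_forall fun w => ?_)
    rw [norm_mul]
    by_cases hw : f w = 0
    · rw [hw]; simp
    · refine mul_le_mul_of_nonneg_right ((Kn_norm n hn _).trans ?_) (norm_nonneg _)
      have h3 := h1 w hw
      have h4 : 3 / 4 ≤ ‖z - w‖ := by
        have := norm_sub_norm_le w z
        rw [norm_sub_rev] at this
        linarith
      unfold ker
      gcongr
  have i2 : Integrable fun w => Kn n w * ex z (iv n w) * f w := by
    refine Integrable.mono' (g := fun w => n / (Real.pi * 1 ^ 2) * ‖f w‖)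
      (hfi.norm.const_mul _) ?_ (Filter.Eventually.of_forall fun w => ?_)
    · refine (((Kn_meas n).mul ?_).mul hfm).aestronglyMeasurable
      exact PAL.ex_cont.measurable.comp (measurable_const.prodMk (PAL.iv_meas n))
    · rw [norm_mul, norm_mul, PAL.ex_norm, mul_one]
      by_cases hw : f w = 0
      · rw [hw]; simp
      · refine mul_le_mul_of_nonneg_right ((Kn_norm n hn _).trans ?_) (norm_nonneg _)
        have h3 := h1 w hw
        unfold ker
        gcongr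
  have e1 : TT n f z - M n f z = ∫ w, (Kn n (z - w) - Kn n w * ex z (iv n w)) * f w := by
    rw [KER.t n hn f z hts]
    unfold M
    rw [← integral_sub i1 i2]
    refine integral_congr_ae (Filter.Eventually.of_forall fun w => ?_)
    simp only
    ring
  rw [e1]
  refine (enorm_integral_le_lintegral_enorm _).trans ?_
  refine le_trans ?_ (mul_le_mul' le_rfl (hold hp hfm h1))
  rw [← lintegral_const_mul' _ _ ofReal_ne_top]
  refine lintegral_mono fun w => ?_
  simp only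
  by_cases hw : f w = 0
  · rw [hw]; simp
  have hw1 := h1 w hw
  have hw0 : w ≠ 0 := by
    rintro rfl
    rw [norm_zero] at hw1
    linarith
  have hwp : 0 < ‖w‖ := by linarith
  rw [enorm_mul, ← mul_assoc, ← ENNReal.ofReal_mul (by positivity)]
  refine mul_le_mul' ?_ le_rfl
  rw [← ofReal_norm]
  refine ENNReal.ofReal_le_ofReal ?_
  have h2 := LIN.t n hn w z hw0 (by linarith) (by
    refine hz2.trans ?_
    exact one_le_pow₀ hw1)
  have h3 : Kn n (z - w) = Kn n (w - z) := by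
    rw [← Kn_even n hn, neg_sub]
  rw [h3]
  refine h2.trans ?_
  unfold ker
  have h4 : ‖z‖ / ‖w‖ + n * (‖z‖ / ‖w‖) ^ 2 ≤ (‖z‖ + n * ‖z‖ ^ 2) / ‖w‖ := by
    rw [add_div, div_pow, mul_div_assoc]
    have h5 : ‖z‖ ^ 2 / ‖w‖ ^ 2 ≤ ‖z‖ ^ 2 / ‖w‖ := by
      refine div_le_div_of_nonneg_left (by positivity) hwp ?_
      nlinarith
    have h6 := mul_le_mul_of_nonneg_left h5 hn0.le
    linarith
  calc 100 * (n / (Real.pi * ‖w‖ ^ 2)) * (‖z‖ / ‖w‖ + n * (‖z‖ / ‖w‖) ^ 2)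
      ≤ 100 * (n / (Real.pi * ‖w‖ ^ 2)) * ((‖z‖ + n * ‖z‖ ^ 2) / ‖w‖) :=
        mul_le_mul_of_nonneg_left h4 (by positivity)
    _ = 100 * (n / Real.pi) * (‖z‖ + n * ‖z‖ ^ 2) * (‖w‖ ^ 3)⁻¹ := by
        field_simp

end Pool.Agent.L5helper98.PF
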