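import Mathlib
import Pool.Agent.L5helper98.PF.B
import Pool.Agent.N892.BW.DUA
import Pool.Agent.N892.BW.BAS

/-! Paley's inequality and the operator near the origin. -/

set_option autoImplicit false

open MeasureTheory ENNReal Topology Complex
open scoped ComplexConjugate ContDiff SchwartzMap

namespace Pool.Agent.L5helper98.PF

open Pool.Agent.N892.BW

theorem eL {p : ℝ} (hp : 0 < p) (g : ℂ → ℂ) (μ : Measure ℂ) :
    eLpNorm g (ENNReal.ofReal p) μ = (∫⁻ x, ‖g x‖ₑ ^ p ∂μ) ^ (1 / p) := by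
  rw [eLpNorm_eq_lintegral_rpow_enorm_toReal (by simpa using hp) ofReal_ne_top,
    ENNReal.toReal_ofReal hp.le]

/-- the small ball -/
def Bn (n : ℕ) : Set ℂ := {z | ‖z‖ ≤ (n : ℝ) ^ (-(3 / 4) : ℝ)}

theorem Bn_meas (n : ℕ) : MeasurableSet (Bn n) := measurableSet_le measurable_norm measurable_const

theorem Bn_eq (n : ℕ) : Bn n = Metric.closedBall 0 ((n : ℝ) ^ (-(3 / 4) : ℝ)) := by
  ext z
  simp [Bn]

/-- the constant of the error -/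
noncomputable def Ec (p : ℝ) : ℝ≥0∞ :=
  ENNReal.ofReal Real.pi ^ (1 / p) * (ENNReal.ofReal (200 / Real.pi) * (1 + Kc))

theorem Ec_lt (p : ℝ) (hp : 0 < p) : Ec p < ⊤ := by
  unfold Ec
  refine ENNReal.mul_lt_top (ENNReal.rpow_lt_top_of_nonneg (by positivity) ofReal_ne_top) ?_
  exact ENNReal.mul_lt_top ofReal_lt_top (ENNReal.add_lt_top.2 ⟨one_lt_top, Kc_lt⟩)

theorem err_norm {p : ℝ} (hp : 2 ≤ p) {n : ℕ} (hn : 16 ≤ n) (f : 𝓢(ℂ, ℂ))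
    (h1 : ∀ w, f w ≠ 0 → 1 ≤ ‖w‖) :
    eLpNorm (fun z => TT n f z - M n f z) (ENNReal.ofReal p) (volume.restrict (Bn n)) ≤
      Ec p * ENNReal.ofReal ((n : ℝ) ^ (-(1 / 4) : ℝ) * (n : ℝ) ^ (1 - 2 / p)) *
        (N p f) ^ (1 / p) := by
  have hp0 : 0 < p := by linarith
  have hn0 : (16 : ℝ) ≤ n := by exact_mod_cast hn
  have hnp : (0 : ℝ) < n := by linarith
  have hpi := Real.pi_pos
  have hr : (n : ℝ) ^ (-(3 / 4) : ℝ) ≤ 1 / 4 := by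
    have h2 : (16 : ℝ) ^ (3 / 4 : ℝ) ≤ (n : ℝ) ^ (3 / 4 : ℝ) :=
      Real.rpow_le_rpow (by norm_num) hn0 (by norm_num)
    have h3 : (16 : ℝ) ^ (3 / 4 : ℝ) = 8 := by
      rw [show (16 : ℝ) = 2 ^ (4 : ℝ) by norm_num, ← Real.rpow_mul (by norm_num)]
      norm_num
    rw [Real.rpow_neg hnp.le, inv_le_comm₀ (Real.rpow_pos_of_pos hnp _) (by norm_num)]
    rw [h3] at h2
    norm_num
    linarith
  have hsq : (n : ℝ) * ((n : ℝ) ^ (-(3 / 4) : ℝ)) ^ 2 = (n : ℝ) ^ (-(1 / 2) : ℝ) := by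
    rw [← Real.rpow_natCast, ← Real.rpow_mul hnp.le]
    nth_rewrite 1 [← Real.rpow_one (n : ℝ)]
    rw [← Real.rpow_add hnp]
    norm_num
  have hle1 : (n : ℝ) ^ (-(1 / 2) : ℝ) ≤ 1 :=
    Real.rpow_le_one_of_one_le_of_nonpos (by linarith) (by norm_num)
  have hle2 : (n : ℝ) ^ (-(3 / 4) : ℝ) ≤ (n : ℝ) ^ (-(1 / 2) : ℝ) :=
    Real.rpow_le_rpow_of_exponent_le (by linarith) (by norm_num)
  -- the pointwise bound
  have hpt : ∀ z ∈ Bn n, ‖TT n f z - M n f z‖ₑ ≤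
      ENNReal.ofReal (200 / Real.pi * (n : ℝ) ^ (1 / 2 : ℝ)) * ((1 + Kc) * (N p f) ^ (1 / p)) := by
    intro z hz
    have hz' : ‖z‖ ≤ (n : ℝ) ^ (-(3 / 4) : ℝ) := hz
    have hz2 : (n : ℝ) * ‖z‖ ^ 2 ≤ (n : ℝ) ^ (-(1 / 2) : ℝ) := by
      rw [← hsq]
      gcongr
    refine (err hp (by omega) f h1 (hz'.trans hr) (hz2.trans hle1)).trans ?_
    refine mul_le_mul' (ENNReal.ofReal_le_ofReal ?_) le_rfl
    have e1 : (n : ℝ) ^ (1 / 2 : ℝ) = n * (n : ℝ) ^ (-(1 / 2) : ℝ) := by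
      nth_rewrite 2 [← Real.rpow_one (n : ℝ)]
      rw [← Real.rpow_add hnp]
      norm_num
    rw [e1]
    calc 100 * (n / Real.pi) * (‖z‖ + n * ‖z‖ ^ 2)
        ≤ 100 * (n / Real.pi) * ((n : ℝ) ^ (-(1 / 2) : ℝ) + (n : ℝ) ^ (-(1 / 2) : ℝ)) := by
          gcongr
          exact hz'.trans hle2
      _ = 200 / Real.pi * (n * (n : ℝ) ^ (-(1 / 2) : ℝ)) := by ring
  rw [eL hp0]
  have h3 : ∫⁻ z in Bn n, ‖TT n f z - M n f z‖ₑ ^ p ≤
      (ENNReal.ofReal (200 / Real.pi * (n : ℝ) ^ (1 / 2 : ℝ)) * ((1 + Kc) * (N p f) ^ (1 / p))) ^ p *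
        volume (Bn n) := by
    rw [← setLIntegral_const]
    exact setLIntegral_mono' (Bn_meas n) fun z hz => ENNReal.rpow_le_rpow (hpt z hz) hp0.le
  refine (ENNReal.rpow_le_rpow h3 (by positivity)).trans ?_
  rw [ENNReal.mul_rpow_of_nonneg _ _ (by positivity), ← ENNReal.rpow_mul, mul_one_div_cancel hp0.ne',
    ENNReal.rpow_one, Bn_eq, Complex.volume_closedBall]
  have e5 : (ENNReal.ofReal ((n : ℝ) ^ (-(3 / 4) : ℝ)) ^ 2 * (NNReal.pi : ℝ≥0∞)) ^ (1 / p) =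
      ENNReal.ofReal Real.pi ^ (1 / p) * ENNReal.ofReal ((n : ℝ) ^ (-(3 / (2 * p)) : ℝ)) := by
    rw [mul_comm, ENNReal.mul_rpow_of_nonneg _ _ (by positivity)]
    congr 1
    · congr 1
      rw [← NNReal.coe_real_pi, ENNReal.ofReal_coe_nnreal]
    · rw [← ENNReal.ofReal_pow (by positivity), ENNReal.ofReal_rpow_of_nonneg (by positivity)
        (by positivity), ← Real.rpow_natCast, ← Real.rpow_mul hnp.le, ← Real.rpow_mul hnp.le]
      congr 2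
      push_cast
      field_simp
      ring
  rw [e5]
  unfold Ec
  have e6 : ENNReal.ofReal (200 / Real.pi * (n : ℝ) ^ (1 / 2 : ℝ)) =
      ENNReal.ofReal (200 / Real.pi) * ENNReal.ofReal ((n : ℝ) ^ (1 / 2 : ℝ)) :=
    ENNReal.ofReal_mul (by positivity)
  rw [e6]
  have e7 : ENNReal.ofReal ((n : ℝ) ^ (1 / 2 : ℝ)) * ENNReal.ofReal ((n : ℝ) ^ (-(3 / (2 * p)) : ℝ)) ≤
      ENNReal.ofReal ((n : ℝ) ^ (-(1 / 4) : ℝ) * (n : ℝ) ^ (1 - 2 / p)) := by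
    rw [← ENNReal.ofReal_mul (by positivity), ← Real.rpow_add hnp, ← Real.rpow_add hnp]
    refine ENNReal.ofReal_le_ofReal (Real.rpow_le_rpow_of_exponent_le (by linarith) ?_)
    have h5 : 1 / p ≤ 1 / 2 := one_div_le_one_div_of_le (by norm_num) hp
    have e8 : 3 / (2 * p) = 3 / 2 * (1 / p) := by field_simp
    have e9 : 2 / p = 2 * (1 / p) := by ring
    rw [e8, e9]
    linarith
  calc ENNReal.ofReal (200 / Real.pi) * ENNReal.ofReal ((n : ℝ) ^ (1 / 2 : ℝ)) *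
        ((1 + Kc) * N p f ^ (1 / p)) *
        (ENNReal.ofReal Real.pi ^ (1 / p) * ENNReal.ofReal ((n : ℝ) ^ (-(3 / (2 * p)) : ℝ)))
      = ENNReal.ofReal Real.pi ^ (1 / p) * (ENNReal.ofReal (200 / Real.pi) * (1 + Kc)) *
        (ENNReal.ofReal ((n : ℝ) ^ (1 / 2 : ℝ)) * ENNReal.ofReal ((n : ℝ) ^ (-(3 / (2 * p)) : ℝ))) *
        N p f ^ (1 / p) := by ring
    _ ≤ _ := by gcongr

end Pool.Agent.L5helper98.PF
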