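import Mathlib
import Pool.Agent.L5helper98.PF.C

/-! Paley's inequality implies the bound near the origin. -/

set_option autoImplicit false

open MeasureTheory ENNReal Topology Complex
open scoped ComplexConjugate ContDiff SchwartzMap

namespace Pool.Agent.L5helper98.PF

open Pool.Agent.N892.BW

theorem bd_int {a b : ℝ} {h : ℂ → ℂ} (hh : Bd a b h) : Integrable h := by
  refine hh.1.continuous.integrable_of_hasCompactSupport ?_
  refine HasCompactSupport.intro (isCompact_closedBall (0 : ℂ) b) fun x hx => ?_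
  by_contra hne
  exact hx (by simpa using (hh.2 x hne).2)

/-- Paley's inequality, internal form -/
def PalI (p C : ℝ) : Prop := ∀ (a b : ℝ) (Φ : ℂ → ℂ), 0 < a → Bd a b Φ →
  N p (FourierTransform.fourier Φ) ≤ ENNReal.ofReal (C ^ p) * W p Φ

/-- the bound near the origin, internal form -/
def Foc (p A : ℝ) (n : ℕ) : Prop := ∀ (b : ℝ) (f : 𝓢(ℂ, ℂ)),
  (∀ w, f w ≠ 0 → 1 ≤ ‖w‖ ∧ ‖w‖ ≤ b) →
  eLpNorm (fun z => TT n f z) (ENNReal.ofReal p) (volume.restrict (Bn n)) ≤
    ENNReal.ofReal (A * (n : ℝ) ^ (1 - 2 / p)) * eLpNorm f (ENNReal.ofReal p) volume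

theorem M_cont {n : ℕ} (hn : 1 ≤ n) {f : ℂ → ℂ} (hi : Integrable (P n f)) : Continuous (M n f) := by
  have hc : Continuous (FourierTransform.fourier (P n f)) :=
    VectorFourier.fourierIntegral_continuous (L := innerₗ ℂ) Real.continuous_fourierChar
      continuous_inner hi
  have e : M n f = fun z => FourierTransform.fourier (P n f) ((2 * Real.pi)⁻¹ • FOUR.rt z) := by
    funext z
    exact M_four hn f z
  rw [e]
  exact hc.comp (continuous_const_smul _ |>.comp FOUR.rt.continuous)

theorem TT_meas (n : ℕ) (f : 𝓢(ℂ, ℂ)) : Measurable (fun z => TT n f z) := by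
  have h1 : StronglyMeasurable (Function.uncurry fun (ξ w : ℂ) =>
      Complex.exp (-(2 * (Real.pi : ℂ) * Complex.I *
        ((w.re * ξ.re + w.im * ξ.im : ℝ) : ℂ))) * f w) := by
    refine Continuous.stronglyMeasurable ?_
    have := f.continuous
    simp only [Function.uncurry_def]
    fun_prop
  have h2 := (h1.integral_prod_right (ν := (volume : Measure ℂ))).measurable
  have h3 : StronglyMeasurable (Function.uncurry fun (z ξ : ℂ) =>
      Complex.exp (2 * (Real.pi : ℂ) * Complex.I * ((z.re * ξ.re + z.im * ξ.im : ℝ) : ℂ)) *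
      ((starRingEnd ℂ ξ / ξ) ^ n *
        ∫ w : ℂ, Complex.exp (-(2 * (Real.pi : ℂ) * Complex.I *
          ((w.re * ξ.re + w.im * ξ.im : ℝ) : ℂ))) * f w)) := by
    refine Measurable.stronglyMeasurable ?_
    refine Measurable.mul ?_ (((((Complex.continuous_conj.measurable).comp measurable_snd).div
      measurable_snd).pow_const n).mul (h2.comp measurable_snd))
    refine Continuous.measurable ?_
    fun_prop
  exact (h3.integral_prod_right (ν := (volume : Measure ℂ))).measurable

theorem W_M {p C : ℝ} (hp : 0 < p) (hC : 0 ≤ C) (h : PalI p C) {n : ℕ} (hn : 1 ≤ n) {a b : ℝ}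
    (ha : 0 < a) {f : ℂ → ℂ} (hf : Bd a b f) :
    (N p (M n f)) ^ (1 / p) ≤
      ENNReal.ofReal (Real.pi ^ (2 / p - 1) * C * (n : ℝ) ^ (1 - 2 / p)) * (N p f) ^ (1 / p) := by
  have hn0 : (0 : ℝ) < n := by exact_mod_cast hn
  have hpi := Real.pi_pos
  have hP := bd_P ha hf hn
  have key : N p (M n f) ≤ ENNReal.ofReal ((Real.pi ^ (2 / p - 1) * C * (n : ℝ) ^ (1 - 2 / p)) ^ p) *
      N p f := by
    rw [N_M hn (bd_int hP)]
    by_cases hb : 0 < b
    · refine (mul_le_mul' le_rfl (h _ _ _ (by positivity) hP)).trans (le_of_eq ?_)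
      rw [W_P hp hn, ← mul_assoc, ← mul_assoc, ← ENNReal.ofReal_mul (by positivity),
        ← ENNReal.ofReal_mul (by positivity)]
      congr 2
      rw [Real.mul_rpow (by positivity) (by positivity), Real.mul_rpow (by positivity) (by positivity),
        ← Real.rpow_mul hpi.le, ← Real.rpow_mul hn0.le, Real.div_rpow (by positivity) (by positivity)]
      have e1 : (2 / p - 1) * p = 2 - p := by field_simp
      have e2 : (1 - 2 / p) * p = p - 2 := by field_simp
      rw [e1, e2, Real.rpow_sub hpi, Real.rpow_sub hn0, show (2 : ℝ) = ((2 : ℕ) : ℝ) by norm_num,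
        Real.rpow_natCast, Real.rpow_natCast]
      have h1 : 0 < Real.pi ^ p := Real.rpow_pos_of_pos hpi _
      have h2 : 0 < (n : ℝ) ^ p := Real.rpow_pos_of_pos hn0 _
      push_cast
      field_simp
    · have hz : f = fun _ => 0 := by
        funext w
        by_contra hne
        have := hf.2 w hne
        linarith
      have hz2 : P n f = fun _ => 0 := by
        funext v
        unfold P
        rw [hz]
        simp
      have hz3 : FourierTransform.fourier (P n f) = fun _ => (0 : ℂ) := by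
        funext v
        rw [hz2, Real.fourier_eq]
        simp
      unfold N
      rw [hz3]
      simp [hp]
  refine (ENNReal.rpow_le_rpow key (by positivity)).trans (le_of_eq ?_)
  rw [ENNReal.mul_rpow_of_nonneg _ _ (by positivity)]
  congr 1
  rw [ENNReal.ofReal_rpow_of_nonneg (by positivity) (by positivity), ← Real.rpow_mul (by positivity),
    mul_one_div_cancel hp.ne', Real.rpow_one]

theorem fwd {p A A' : ℝ} (hp : 2 ≤ p) (hA : 0 ≤ A) (h : PalI p (Real.pi ^ (1 - 2 / p) * A))
    (hA' : A < A') : ∀ᶠ n : ℕ in Filter.atTop, Foc p A' n := by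
  have hp0 : 0 < p := by linarith
  have hpi := Real.pi_pos
  have hlim : Filter.Tendsto (fun n : ℕ => Ec p * ENNReal.ofReal ((n : ℝ) ^ (-(1 / 4) : ℝ)))
      Filter.atTop (𝓝 0) := by
    have h1 : Filter.Tendsto (fun n : ℕ => (n : ℝ) ^ (-(1 / 4) : ℝ)) Filter.atTop (𝓝 0) :=
      (tendsto_rpow_neg_atTop (by norm_num)).comp tendsto_natCast_atTop_atTop
    have h2 := ENNReal.Tendsto.const_mul (ENNReal.tendsto_ofReal h1)
      (Or.inr (Ec_lt p hp0).ne : (ENNReal.ofReal 0 : ℝ≥0∞) ≠ 0 ∨ Ec p ≠ ⊤)
    simpa using h2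
  have hev := (ENNReal.tendsto_nhds_zero.1 hlim) (ENNReal.ofReal (A' - A))
    (by rw [gt_iff_lt, ENNReal.ofReal_pos]; linarith)
  filter_upwards [hev, Filter.eventually_ge_atTop 16] with n hn1 hn16
  intro b f hf
  have hn0 : (0 : ℝ) < n := by
    have : 0 < n := by omega
    exact_mod_cast this
  have hBd : Bd 1 b f := ⟨f.smooth _, hf⟩
  have hPi : Integrable (P n f) := bd_int (bd_P one_pos hBd (by omega))
  have hMc := M_cont (by omega : 1 ≤ n) hPi
  have e1 : (fun z => TT n f z) = fun z => (TT n f z - M n f z) + M n f z := by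
    funext z
    ring
  have hm1 : AEStronglyMeasurable (fun z => TT n f z - M n f z) (volume.restrict (Bn n)) :=
    ((TT_meas n f).sub hMc.measurable).aestronglyMeasurable
  have h2 := eLpNorm_add_le hm1 (hMc.measurable.aestronglyMeasurable (μ := volume.restrict (Bn n)))
    (p := ENNReal.ofReal p) (by rw [← ENNReal.ofReal_one]; exact ENNReal.ofReal_le_ofReal (by linarith))
  have h3 := err_norm hp hn16 f (fun w hw => (hf w hw).1)
  have h4 : eLpNorm (M n f) (ENNReal.ofReal p) (volume.restrict (Bn n)) ≤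
      ENNReal.ofReal (A * (n : ℝ) ^ (1 - 2 / p)) * (N p f) ^ (1 / p) := by
    refine (eLpNorm_mono_measure _ Measure.restrict_le_self).trans ?_
    rw [eL hp0]
    refine (W_M hp0 (by positivity) h (by omega) one_pos hBd).trans (le_of_eq ?_)
    congr 2
    rw [← mul_assoc, ← Real.rpow_add hpi]
    rw [show (2 / p - 1 + (1 - 2 / p)) = 0 by ring, Real.rpow_zero, one_mul]
  rw [e1]
  refine h2.trans ((add_le_add h3 h4).trans ?_)
  rw [eL hp0, ← add_mul]
  refine mul_le_mul' ?_ le_rfl
  rw [ENNReal.ofReal_mul (by positivity : (0 : ℝ) ≤ (n : ℝ) ^ (-(1 / 4) : ℝ)), ← mul_assoc,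
    ENNReal.ofReal_mul hA, ← add_mul, ENNReal.ofReal_mul (hA.trans hA'.le)]
  refine mul_le_mul' ?_ le_rfl
  refine (add_le_add hn1 le_rfl).trans ?_
  rw [← ENNReal.ofReal_add (by linarith) hA]
  exact ENNReal.ofReal_le_ofReal (by linarith)

end Pool.Agent.L5helper98.PF
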