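import Mathlib
import Pool.Agent.L5helper98.PF.D

/-! The bound near the origin implies Paley's inequality. -/

set_option autoImplicit false

open MeasureTheory ENNReal Topology Complex
open scoped ComplexConjugate ContDiff SchwartzMap

namespace Pool.Agent.L5helper98.PF

open Pool.Agent.N892.BW

/-- the Fourier integral -/
noncomputable def H (Φ : ℂ → ℂ) (y : ℂ) : ℂ := ∫ u, Φ u * ex y u

/-- dilations -/
noncomputable def dl (t : ℝ) (Φ : ℂ → ℂ) (v : ℂ) : ℂ := Φ ((t⁻¹ : ℝ) * v)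

theorem ex_dl (t : ℝ) (z w : ℂ) : ex z ((t : ℂ) * w) = ex ((t : ℂ) * z) w := by
  unfold ex
  congr 3
  rw [map_mul, Complex.conj_ofReal]
  congr 1
  ring

theorem H_dl {t : ℝ} (ht : 0 < t) (Φ : ℂ → ℂ) (z : ℂ) :
    H (dl t Φ) z = (t : ℂ) ^ 2 * H Φ ((t : ℂ) * z) := by
  have h := DUA.int_scale (t := t) (fun v => dl t Φ v * ex z v)
  have h2 : (t : ℂ) ≠ 0 := by exact_mod_cast ht.ne'
  have e1 : (fun w : ℂ => dl t Φ ((t : ℂ) * w) * ex z ((t : ℂ) * w)) =
      fun w => Φ w * ex ((t : ℂ) * z) w := by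
    funext w
    unfold dl
    rw [ex_dl, ← mul_assoc]
    congr 2
    rw [← Complex.ofReal_mul, inv_mul_cancel₀ ht.ne', Complex.ofReal_one, one_mul]
  have e2 : ∫ w : ℂ, dl t Φ ((t : ℂ) * w) * ex z ((t : ℂ) * w) = H Φ ((t : ℂ) * z) := by
    rw [e1]
    rfl
  rw [← e2, h, ← mul_assoc, mul_inv_cancel₀ (pow_ne_zero 2 h2), one_mul]
  rfl

theorem bd_dl {t a b : ℝ} (ht : 0 < t) {Φ : ℂ → ℂ} (hΦ : Bd a b Φ) :
    Bd (a * t) (b * t) (dl t Φ) := by
  refine ⟨?_, fun v hv => ?_⟩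
  · unfold dl
    exact hΦ.1.comp (contDiff_const.mul contDiff_id)
  · obtain ⟨h1, h2⟩ := hΦ.2 _ hv
    rw [norm_mul, Complex.norm_real, Real.norm_of_nonneg (inv_nonneg.2 ht.le)] at h1 h2
    rw [inv_mul_eq_div] at h1 h2
    rw [le_div_iff₀ ht] at h1
    rw [div_le_iff₀ ht] at h2
    exact ⟨h1, h2⟩

theorem W_dl {p t : ℝ} (ht : 0 < t) (Φ : ℂ → ℂ) :
    W p (dl t Φ) = ENNReal.ofReal (t ^ (2 * p - 2)) * W p Φ := by
  have h := DUA.lint_scale ht.ne' (fun v => ‖dl t Φ v‖ₑ ^ p * ‖v‖ₑ ^ (2 * p - 4))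
  have e1 : ∫⁻ w : ℂ, ‖dl t Φ ((t : ℂ) * w)‖ₑ ^ p * ‖(t : ℂ) * w‖ₑ ^ (2 * p - 4) =
      ENNReal.ofReal (t ^ (2 * p - 4)) * W p Φ := by
    unfold W
    rw [← lintegral_const_mul' _ _ ofReal_ne_top]
    refine lintegral_congr_ae ?_
    filter_upwards [compl_mem_ae_iff.2 (measure_singleton (0 : ℂ))] with w hw
    have hw0 : w ≠ 0 := hw
    have e2 : dl t Φ ((t : ℂ) * w) = Φ w := by
      unfold dl
      rw [← mul_assoc, ← Complex.ofReal_mul, inv_mul_cancel₀ ht.ne', Complex.ofReal_one, one_mul]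
    have e3 : ‖(t : ℂ) * w‖ₑ ^ (2 * p - 4) =
        ENNReal.ofReal (t ^ (2 * p - 4)) * ‖w‖ₑ ^ (2 * p - 4) := by
      have hwp : 0 < ‖w‖ := norm_pos_iff.2 hw0
      rw [← ofReal_norm, ← ofReal_norm w, norm_mul, Complex.norm_real, Real.norm_of_nonneg ht.le,
        ENNReal.ofReal_rpow_of_pos (by positivity), ENNReal.ofReal_rpow_of_pos hwp,
        ← ENNReal.ofReal_mul (by positivity), Real.mul_rpow ht.le hwp.le]
    rw [e2, e3]
    ring
  rw [e1] at h
  have h2 : W p (dl t Φ) = ENNReal.ofReal (t ^ 2) * (ENNReal.ofReal (t ^ (2 * p - 4)) * W p Φ) := by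
    rw [h, ← mul_assoc, ← ENNReal.ofReal_mul (by positivity), mul_inv_cancel₀ (by positivity),
      ENNReal.ofReal_one, one_mul]
    rfl
  rw [h2, ← mul_assoc, ← ENNReal.ofReal_mul (by positivity)]
  congr 2
  rw [← Real.rpow_natCast t 2, ← Real.rpow_add ht]
  congr 1
  push_cast
  ring

theorem W_fin {p a b : ℝ} (hp : 2 ≤ p) {Φ : ℂ → ℂ} (hΦ : Bd a b Φ) : W p Φ < ⊤ := by
  have h1 : Continuous fun v : ℂ => ‖Φ v‖ ^ p * ‖v‖ ^ (2 * p - 4) := by
    refine (hΦ.1.continuous.norm.rpow_const fun _ => Or.inr (by linarith)).mul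
      (continuous_norm.rpow_const fun _ => Or.inr (by linarith))
  have h2 : Integrable fun v : ℂ => ‖Φ v‖ ^ p * ‖v‖ ^ (2 * p - 4) := by
    refine h1.integrable_of_hasCompactSupport ?_
    refine HasCompactSupport.intro (isCompact_closedBall (0 : ℂ) b) fun x hx => ?_
    have : Φ x = 0 := by
      by_contra hne
      exact hx (by simpa using (hΦ.2 x hne).2)
    rw [this, norm_zero, Real.zero_rpow (by linarith), zero_mul]
  have h3 := h2.lintegral_lt_top
  refine lt_of_eq_of_lt ?_ h3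
  unfold W
  refine lintegral_congr fun v => ?_
  rw [← ofReal_norm, ← ofReal_norm v, ENNReal.ofReal_rpow_of_nonneg (norm_nonneg _) (by linarith),
    ENNReal.ofReal_rpow_of_nonneg (norm_nonneg _) (by linarith), ← ENNReal.ofReal_mul (by positivity)]

theorem H_cont {a b : ℝ} {Φ : ℂ → ℂ} (hΦ : Bd a b Φ) : Continuous (H Φ) := by
  have hc : Continuous (FourierTransform.fourier Φ) :=
    VectorFourier.fourierIntegral_continuous (L := innerₗ ℂ) Real.continuous_fourierChar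
      continuous_inner (bd_int hΦ)
  have e : H Φ = fun z => FourierTransform.fourier Φ ((2 * Real.pi)⁻¹ • FOUR.rt z) := by
    funext z
    exact FOUR.ex_four Φ z
  rw [e]
  exact hc.comp (continuous_const_smul _ |>.comp FOUR.rt.continuous)

/-- the bound for one `n` -/
theorem one_n {p A a b : ℝ} (hp : 2 ≤ p) (ha : 0 < a) (hb : 0 < b) {Φ : ℂ → ℂ}
    (hΦ : Bd a b Φ) {n : ℕ} (hn : 16 ≤ n) (h : Foc p A n) {R : ℝ}
    (hR : R ≤ 2 * n / b * (n : ℝ) ^ (-(3 / 4) : ℝ)) :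
    (∫⁻ y in Metric.closedBall (0 : ℂ) R, ‖H Φ y‖ₑ ^ p) ^ (1 / p) ≤
      (ENNReal.ofReal A + Ec p * ENNReal.ofReal ((n : ℝ) ^ (-(1 / 4) : ℝ))) *
        (ENNReal.ofReal (2 ^ (2 / p) * Real.pi) * (W p Φ) ^ (1 / p)) := by
  have hp0 : 0 < p := by linarith
  have hpi := Real.pi_pos
  have hn1 : 1 ≤ n := by omega
  have hn0 : (0 : ℝ) < n := by exact_mod_cast hn1
  obtain ⟨t, ht⟩ : ∃ t : ℝ, t = 2 * n / b := ⟨_, rfl⟩
  have ht0 : 0 < t := by rw [ht]; positivity
  have hbt : b * t = 2 * n := by rw [ht]; field_simp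
  -- the function
  have hB1 := bd_dl ht0 hΦ
  have hB2 := bd_G (mul_pos ha ht0) hB1 hn1
  have hf1 : 2 * n / (b * t) = 1 := by rw [hbt]; field_simp
  rw [hf1] at hB2
  obtain ⟨f, hf⟩ : ∃ f : 𝓢(ℂ, ℂ), ∀ w, f w = G n (dl t Φ) w := ⟨BAS.sch hB2, fun w => rfl⟩
  have hff : (fun w => f w) = G n (dl t Φ) := funext hf
  have hfs : ∀ w, f w ≠ 0 → 1 ≤ ‖w‖ ∧ ‖w‖ ≤ 2 * n / (a * t) := by
    intro w hw
    rw [hf] at hw
    exact hB2.2 w hw
  have hBf : Bd 1 (2 * n / (a * t)) (fun w => f w) := by rw [hff]; exact hB2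
  have hPf : ∀ᵐ v : ℂ, P n (fun w => f w) v = dl t Φ v := by
    filter_upwards [compl_mem_ae_iff.2 (measure_singleton (0 : ℂ))] with v hv
    rw [hff]
    exact P_G hn1 hv
  have hPi : Integrable (P n (fun w => f w)) := bd_int (bd_P one_pos hBf hn1)
  have hMc := M_cont hn1 hPi
  have hM : ∀ z, M n (fun w => f w) z = (t : ℂ) ^ 2 * H Φ ((t : ℂ) * z) := by
    intro z
    rw [M_eq hn1, ← H_dl ht0]
    unfold H
    refine integral_congr_ae ?_
    filter_upwards [hPf] with v hv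
    rw [hv]
  have hN : ENNReal.ofReal ((n / Real.pi) ^ p / (2 * (n : ℝ)) ^ 2) * N p (fun w => f w) =
      ENNReal.ofReal (t ^ (2 * p - 2)) * W p Φ := by
    rw [← W_P hp0 hn1, ← W_dl ht0]
    unfold W
    refine lintegral_congr_ae ?_
    filter_upwards [hPf] with v hv
    rw [hv]
  have hN2 : (N p (fun w => f w)) ^ (1 / p) =
      ENNReal.ofReal ((2 * (n : ℝ)) ^ (2 / p) * (Real.pi / n) * t ^ (2 - 2 / p)) *
        (W p Φ) ^ (1 / p) := by
    have e1 : N p (fun w => f w) = ENNReal.ofReal ((2 * (n : ℝ)) ^ 2 / (n / Real.pi) ^ p *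
        t ^ (2 * p - 2)) * W p Φ := by
      rw [ENNReal.ofReal_mul (by positivity), mul_assoc, ← hN, ← mul_assoc,
        ← ENNReal.ofReal_mul (by positivity)]
      have h5 : 0 < (n / Real.pi) ^ p := Real.rpow_pos_of_pos (by positivity) _
      have e2 : (2 * (n : ℝ)) ^ 2 / (n / Real.pi) ^ p * ((n / Real.pi) ^ p / (2 * (n : ℝ)) ^ 2) = 1 := by
        field_simp
      rw [e2, ENNReal.ofReal_one, one_mul]
    rw [e1, ENNReal.mul_rpow_of_nonneg _ _ (by positivity),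
      ENNReal.ofReal_rpow_of_nonneg (by positivity) (by positivity)]
    congr 2
    rw [Real.mul_rpow (by positivity) (by positivity), Real.div_rpow (by positivity) (by positivity),
      ← Real.rpow_mul (by positivity), ← Real.rpow_mul ht0.le, mul_one_div_cancel hp0.ne',
      Real.rpow_one, ← Real.rpow_natCast, ← Real.rpow_mul (by positivity)]
    have e3 : ((2 : ℕ) : ℝ) * (1 / p) = 2 / p := by push_cast; ring
    have e4 : (2 * p - 2) * (1 / p) = 2 - 2 / p := by field_simp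
    rw [e3, e4]
    field_simp
  -- the norm of the main part on the ball
  have hMB : (∫⁻ y in Metric.closedBall (0 : ℂ) R, ‖H Φ y‖ₑ ^ p) ^ (1 / p) ≤
      ENNReal.ofReal (t ^ (-(2 - 2 / p))) *
        eLpNorm (M n (fun w => f w)) (ENNReal.ofReal p) (volume.restrict (Bn n)) := by
    rw [eL hp0]
    have e1 : ∫⁻ z in Bn n, ‖M n (fun w => f w) z‖ₑ ^ p =
        ENNReal.ofReal (t ^ (2 * p)) * ∫⁻ z in Bn n, ‖H Φ ((t : ℂ) * z)‖ₑ ^ p := by
      rw [← lintegral_const_mul' _ _ ofReal_ne_top]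
      refine lintegral_congr fun z => ?_
      rw [hM, enorm_mul, ENNReal.mul_rpow_of_nonneg _ _ hp0.le]
      congr 1
      rw [← ofReal_norm, norm_pow, Complex.norm_real, Real.norm_of_nonneg ht0.le,
        ENNReal.ofReal_rpow_of_nonneg (by positivity) hp0.le, ← Real.rpow_natCast,
        ← Real.rpow_mul ht0.le]
      push_cast
      rfl
    have e2 : ∫⁻ y in Metric.closedBall (0 : ℂ) R, ‖H Φ y‖ₑ ^ p ≤
        ENNReal.ofReal (t ^ 2) * ∫⁻ z in Bn n, ‖H Φ ((t : ℂ) * z)‖ₑ ^ p := by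
      have e3 := DUA.lint_scale ht0.ne' ((Metric.closedBall (0 : ℂ)
        (t * (n : ℝ) ^ (-(3 / 4) : ℝ))).indicator fun y => ‖H Φ y‖ₑ ^ p)
      have e4 : ∫⁻ z in Bn n, ‖H Φ ((t : ℂ) * z)‖ₑ ^ p =
          ∫⁻ w : ℂ, (Metric.closedBall (0 : ℂ)
        (t * (n : ℝ) ^ (-(3 / 4) : ℝ))).indicator (fun y => ‖H Φ y‖ₑ ^ p) ((t : ℂ) * w) := by
        rw [← lintegral_indicator (Bn_meas n)]
        refine lintegral_congr fun w => ?_
        have e5 : (t : ℂ) * w ∈ Metric.closedBall (0 : ℂ) (t * (n : ℝ) ^ (-(3 / 4) : ℝ)) ↔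
            w ∈ Bn n := by
          rw [Metric.mem_closedBall, dist_zero_right, norm_mul, Complex.norm_real,
            Real.norm_of_nonneg ht0.le]
          exact mul_le_mul_iff_right₀ ht0
        by_cases hw : w ∈ Bn n
        · rw [Set.indicator_of_mem hw, Set.indicator_of_mem (e5.2 hw)]
        · rw [Set.indicator_of_notMem hw, Set.indicator_of_notMem (fun h => hw (e5.1 h))]
      rw [e4, e3, ← mul_assoc, ← ENNReal.ofReal_mul (by positivity),
        mul_inv_cancel₀ (by positivity), ENNReal.ofReal_one, one_mul,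
        lintegral_indicator measurableSet_closedBall]
      refine lintegral_mono_set (Metric.closedBall_subset_closedBall ?_)
      rw [ht]
      exact hR
    have e6 : ENNReal.ofReal (t ^ 2) * ∫⁻ z in Bn n, ‖H Φ ((t : ℂ) * z)‖ₑ ^ p =
        ENNReal.ofReal (t ^ (-(2 * p - 2))) * ∫⁻ z in Bn n, ‖M n (fun w => f w) z‖ₑ ^ p := by
      rw [e1, ← mul_assoc, ← ENNReal.ofReal_mul (by positivity)]
      congr 2
      rw [← Real.rpow_add ht0, ← Real.rpow_natCast]
      congr 1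
      push_cast
      ring
    rw [e6] at e2
    refine (ENNReal.rpow_le_rpow e2 (by positivity)).trans (le_of_eq ?_)
    rw [ENNReal.mul_rpow_of_nonneg _ _ (by positivity),
      ENNReal.ofReal_rpow_of_nonneg (by positivity) (by positivity), ← Real.rpow_mul ht0.le]
    congr 3
    field_simp
  -- triangle inequality
  have hm1 : AEStronglyMeasurable (fun z => TT n f z) (volume.restrict (Bn n)) :=
    (TT_meas n f).aestronglyMeasurable
  have hm2 : AEStronglyMeasurable (fun z => TT n f z - M n f z) (volume.restrict (Bn n)) :=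
    ((TT_meas n f).sub hMc.measurable).aestronglyMeasurable
  have h2 := eLpNorm_sub_le hm1 hm2 (p := ENNReal.ofReal p)
    (by rw [← ENNReal.ofReal_one]; exact ENNReal.ofReal_le_ofReal (by linarith))
  have e7 : (fun z => TT n f z) - (fun z => TT n f z - M n f z) = M n (fun w => f w) := by
    funext z
    simp
  rw [e7] at h2
  have h3 := err_norm hp hn f (fun w hw => (hfs w hw).1)
  have h4 := h _ f hfs
  rw [eL hp0 f] at h4
  have h5 : eLpNorm (M n (fun w => f w)) (ENNReal.ofReal p) (volume.restrict (Bn n)) ≤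
      (ENNReal.ofReal A + Ec p * ENNReal.ofReal ((n : ℝ) ^ (-(1 / 4) : ℝ))) *
        (ENNReal.ofReal ((n : ℝ) ^ (1 - 2 / p)) * (N p (fun w => f w)) ^ (1 / p)) := by
    refine h2.trans ((add_le_add h4 h3).trans ?_)
    rw [ENNReal.ofReal_mul' (by positivity), ENNReal.ofReal_mul (by positivity)]
    refine le_of_eq ?_
    unfold N
    ring
  refine hMB.trans ((mul_le_mul' le_rfl h5).trans (le_of_eq ?_))
  rw [hN2]
  have e8 : ENNReal.ofReal (t ^ (-(2 - 2 / p))) * (ENNReal.ofReal ((n : ℝ) ^ (1 - 2 / p)) *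
      ENNReal.ofReal ((2 * (n : ℝ)) ^ (2 / p) * (Real.pi / n) * t ^ (2 - 2 / p))) =
      ENNReal.ofReal (2 ^ (2 / p) * Real.pi) := by
    rw [← ENNReal.ofReal_mul (by positivity), ← ENNReal.ofReal_mul (by positivity)]
    congr 1
    rw [Real.mul_rpow (by norm_num) hn0.le, Real.rpow_neg ht0.le]
    have h6 : 0 < t ^ (2 - 2 / p) := Real.rpow_pos_of_pos ht0 _
    have h7 : (n : ℝ) ^ (1 - 2 / p) * (n : ℝ) ^ (2 / p) = n := by
      rw [← Real.rpow_add hn0]
      simp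
    generalize t ^ (2 - 2 / p) = u at h6 ⊢
    generalize (n : ℝ) ^ (1 - 2 / p) = x at h7 ⊢
    generalize (n : ℝ) ^ (2 / p) = y at h7 ⊢
    generalize (2 : ℝ) ^ (2 / p) = s
    have h8 : u⁻¹ * (x * (s * y * (Real.pi / n) * u)) = s * (x * y) * Real.pi / n * (u⁻¹ * u) := by
      ring
    rw [h8, h7, inv_mul_cancel₀ h6.ne']
    field_simp
  rw [← e8]
  ring

end Pool.Agent.L5helper98.PF
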