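import Mathlib
import Pool.Agent.L5helper98.PF.E

/-! The bound near the origin for infinitely many `n` implies Paley's inequality. -/

set_option autoImplicit false

open MeasureTheory ENNReal Topology Complex
open scoped ComplexConjugate ContDiff SchwartzMap

namespace Pool.Agent.L5helper98.PF

open Pool.Agent.N892.BW

theorem ball_bound {p A a b : ℝ} (hp : 2 ≤ p) (ha : 0 < a) (hb : 0 < b) {Φ : ℂ → ℂ}
    (hΦ : Bd a b Φ) (h : ∃ᶠ n : ℕ in Filter.atTop, Foc p A n) (R : ℝ) :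
    (∫⁻ y in Metric.closedBall (0 : ℂ) R, ‖H Φ y‖ₑ ^ p) ^ (1 / p) ≤
      ENNReal.ofReal A * (ENNReal.ofReal (2 ^ (2 / p) * Real.pi) * (W p Φ) ^ (1 / p)) := by
  have hp0 : 0 < p := by linarith
  have hWf : (W p Φ) ^ (1 / p) ≠ ⊤ :=
    (ENNReal.rpow_lt_top_of_nonneg (by positivity) (W_fin hp hΦ).ne).ne
  have hlim0 : Filter.Tendsto (fun n : ℕ => Ec p * ENNReal.ofReal ((n : ℝ) ^ (-(1 / 4) : ℝ)))
      Filter.atTop (𝓝 0) := by
    have h1 : Filter.Tendsto (fun n : ℕ => (n : ℝ) ^ (-(1 / 4) : ℝ)) Filter.atTop (𝓝 0) :=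
      (tendsto_rpow_neg_atTop (by norm_num)).comp tendsto_natCast_atTop_atTop
    have h2 := ENNReal.Tendsto.const_mul (ENNReal.tendsto_ofReal h1)
      (Or.inr (Ec_lt p hp0).ne : (ENNReal.ofReal 0 : ℝ≥0∞) ≠ 0 ∨ Ec p ≠ ⊤)
    simpa using h2
  have hlim : Filter.Tendsto (fun n : ℕ => (ENNReal.ofReal A +
      Ec p * ENNReal.ofReal ((n : ℝ) ^ (-(1 / 4) : ℝ))) *
        (ENNReal.ofReal (2 ^ (2 / p) * Real.pi) * (W p Φ) ^ (1 / p))) Filter.atTop
      (𝓝 (ENNReal.ofReal A * (ENNReal.ofReal (2 ^ (2 / p) * Real.pi) * (W p Φ) ^ (1 / p)))) := by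
    have h2 := ENNReal.Tendsto.mul_const (b := ENNReal.ofReal (2 ^ (2 / p) * Real.pi) *
      (W p Φ) ^ (1 / p)) (hlim0.const_add (ENNReal.ofReal A))
      (Or.inr (ENNReal.mul_ne_top ofReal_ne_top hWf))
    rwa [add_zero] at h2
  refine ge_of_tendsto_of_frequently hlim ?_
  have hR : ∀ᶠ n : ℕ in Filter.atTop, R ≤ 2 * n / b * (n : ℝ) ^ (-(3 / 4) : ℝ) := by
    have h1 : Filter.Tendsto (fun n : ℕ => 2 / b * (n : ℝ) ^ (1 / 4 : ℝ)) Filter.atTop
        Filter.atTop :=
      Filter.Tendsto.const_mul_atTop (by positivity)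
        ((tendsto_rpow_atTop (by norm_num)).comp tendsto_natCast_atTop_atTop)
    filter_upwards [h1.eventually_ge_atTop R, Filter.eventually_ge_atTop 1] with n hn hn1
    refine hn.trans (le_of_eq ?_)
    have hn0 : (0 : ℝ) < n := by exact_mod_cast hn1
    have e : (n : ℝ) ^ (1 / 4 : ℝ) = n * (n : ℝ) ^ (-(3 / 4) : ℝ) := by
      nth_rewrite 2 [← Real.rpow_one (n : ℝ)]
      rw [← Real.rpow_add hn0]
      norm_num
    rw [e]
    ring
  refine (h.and_eventually (hR.and (Filter.eventually_ge_atTop 16))).mono ?_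
  rintro n ⟨h1, h2, h3⟩
  exact one_n hp ha hb hΦ h3 h1 h2

theorem bwd {p A : ℝ} (hp : 2 ≤ p) (hA : 0 ≤ A) (h : ∃ᶠ n : ℕ in Filter.atTop, Foc p A n) :
    PalI p (Real.pi ^ (1 - 2 / p) * A) := by
  have hp0 : 0 < p := by linarith
  have hpi := Real.pi_pos
  intro a b Φ ha hΦ
  by_cases hb : 0 < b
  · have hH := H_cont hΦ
    have h1 : ∀ R : ℝ, ∫⁻ y in Metric.closedBall (0 : ℂ) R, ‖H Φ y‖ₑ ^ p ≤
        ENNReal.ofReal ((A * (2 ^ (2 / p) * Real.pi)) ^ p) * W p Φ := by
      intro R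
      have h2 := ENNReal.rpow_le_rpow (ball_bound hp ha hb hΦ h R) hp0.le
      rw [← ENNReal.rpow_mul, one_div_mul_cancel hp0.ne', ENNReal.rpow_one, ← mul_assoc,
        ← ENNReal.ofReal_mul hA, ENNReal.mul_rpow_of_nonneg _ _ hp0.le, ← ENNReal.rpow_mul,
        one_div_mul_cancel hp0.ne', ENNReal.rpow_one,
        ENNReal.ofReal_rpow_of_nonneg (by positivity) hp0.le] at h2
      exact h2
    have h2 : ∫⁻ y, ‖H Φ y‖ₑ ^ p ≤ ENNReal.ofReal ((A * (2 ^ (2 / p) * Real.pi)) ^ p) * W p Φ := by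
      have hdir : Directed (· ⊆ ·) fun k : ℕ => Metric.closedBall (0 : ℂ) k := by
        refine Monotone.directed_le (f := fun k : ℕ => Metric.closedBall (0 : ℂ) k) ?_
        intro i j hij
        exact Metric.closedBall_subset_closedBall (by exact_mod_cast hij)
      have h3 : ∫⁻ y, ‖H Φ y‖ₑ ^ p = ⨆ k : ℕ, ∫⁻ y in Metric.closedBall (0 : ℂ) k, ‖H Φ y‖ₑ ^ p := by
        rw [← setLIntegral_iUnion_of_directed _ hdir, Metric.iUnion_closedBall_nat,
          Measure.restrict_univ]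
      rw [h3]
      exact iSup_le fun k => h1 k
    have h4 : ∫⁻ y, ‖H Φ y‖ₑ ^ p =
        ENNReal.ofReal ((2 * Real.pi) ^ 2) * N p (FourierTransform.fourier Φ) := by
      have hc : Continuous (FourierTransform.fourier Φ) :=
        VectorFourier.fourierIntegral_continuous (L := innerₗ ℂ) Real.continuous_fourierChar
          continuous_inner (bd_int hΦ)
      unfold N
      rw [← FOUR.scale (fun x => ‖FourierTransform.fourier Φ x‖ₑ ^ p)
        (hc.enorm.measurable.pow_const _)]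
      refine lintegral_congr fun z => ?_
      rw [show H Φ z = FourierTransform.fourier Φ ((2 * Real.pi)⁻¹ • FOUR.rt z) from
        FOUR.ex_four Φ z]
    rw [h4] at h2
    have h5 : N p (FourierTransform.fourier Φ) = ENNReal.ofReal (((2 * Real.pi) ^ 2)⁻¹) *
        (ENNReal.ofReal ((2 * Real.pi) ^ 2) * N p (FourierTransform.fourier Φ)) := by
      rw [← mul_assoc, ← ENNReal.ofReal_mul (by positivity), inv_mul_cancel₀ (by positivity),
        ENNReal.ofReal_one, one_mul]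
    rw [h5]
    refine (mul_le_mul' le_rfl h2).trans (le_of_eq ?_)
    rw [← mul_assoc, ← ENNReal.ofReal_mul (by positivity)]
    congr 2
    rw [Real.mul_rpow hA (by positivity), Real.mul_rpow (by positivity) hpi.le,
      Real.mul_rpow (by positivity) hA, ← Real.rpow_mul (by norm_num), ← Real.rpow_mul hpi.le]
    have e1 : 2 / p * p = 2 := by field_simp
    have e2 : (1 - 2 / p) * p = p - 2 := by field_simp
    rw [e1, e2, Real.rpow_sub hpi, show (2 : ℝ) = ((2 : ℕ) : ℝ) by norm_num,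
      Real.rpow_natCast, Real.rpow_natCast]
    push_cast
    field_simp
  · have hz : Φ = fun _ => 0 := by
      funext w
      by_contra hne
      have := hΦ.2 w hne
      linarith
    have hz3 : FourierTransform.fourier Φ = fun _ => (0 : ℂ) := by
      funext v
      rw [hz, Real.fourier_eq]
      simp
    unfold N
    rw [hz3]
    simp [hp0]

end Pool.Agent.L5helper98.PF
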